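import Pool.Agent.K1H80.KA.StmT

/-! Project KA (owner helper80), piece AREA (task 88016). -/

set_option autoImplicit false

namespace Pool.Agent.K1H26.KT

open MvPolynomial Pool.Agent.KA

theorem area_gen {F V W σ : Type} [Field F] (ι : V → W → σ)
    (hι : ∀ i k i' k', ι i k = ι i' k' → i = i' ∧ k = k') :
    Area (fun (i : V) (k : W) =>
      algebraMap (MvPolynomial σ F) (FractionRing (MvPolynomial σ F)) (X (ι i k))) := by
  classical
  intro m c hc i j v hij hiv hjv h0
  have h01 : (0 : Fin (m + 3)) ≠ 1 := by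
    intro h
    have := congrArg Fin.val h
    simp at this
  have hne : ∀ t : Fin (m + 3), t + 1 ≠ t := by
    intro t h
    have h2 : (1 : Fin (m + 3)) = 0 := by
      have h3 : t + 1 = t + 0 := by rw [h, add_zero]
      exact add_left_cancel h3
    exact h01 h2.symm
  have h20 : (1 : Fin (m + 3)) + 1 ≠ 0 := by
    intro h
    have := congrArg Fin.val h
    rw [Fin.val_add] at this
    have e1 : ((1 : Fin (m + 3)) : ℕ) = 1 := rfl
    rw [e1, Nat.mod_eq_of_lt (by omega)] at this
    have e2 : ((0 : Fin (m + 3)) : ℕ) = 0 := rfl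
    omega
  obtain ⟨D, hD⟩ : ∃ D : Fin (m + 3) → MvPolynomial σ F, ∀ t, D t =
    ∏ s ∈ (Finset.univ.erase t).erase (t + 1), X (ι v (c s)) := ⟨_, fun _ => rfl⟩
  obtain ⟨N, hN⟩ : ∃ N : Fin (m + 3) → MvPolynomial σ F, ∀ t, N t =
    X (ι i (c t)) * X (ι j (c (t + 1))) - X (ι i (c (t + 1))) * X (ι j (c t)) :=
      ⟨_, fun _ => rfl⟩
  obtain ⟨P, hPd⟩ : ∃ P : MvPolynomial σ F, P = ∏ s, X (ι v (c s)) := ⟨_, rfl⟩
  have hP : ∀ t, P = X (ι v (c t)) * (X (ι v (c (t + 1))) * D t) := by
    intro t
    rw [hD, Finset.mul_prod_erase _ (fun s => (X (ι v (c s)) : MvPolynomial σ F))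
      (Finset.mem_erase.mpr ⟨hne t, Finset.mem_univ _⟩),
      Finset.mul_prod_erase _ (fun s => (X (ι v (c s)) : MvPolynomial σ F)) (Finset.mem_univ _),
      hPd]
  have hinj : Function.Injective
      (algebraMap (MvPolynomial σ F) (FractionRing (MvPolynomial σ F))) :=
    IsFractionRing.injective _ _
  have hx0 : ∀ s, algebraMap (MvPolynomial σ F) (FractionRing (MvPolynomial σ F))
      (X (ι v (c s))) ≠ 0 := by
    intro s h
    rw [map_eq_zero_iff _ hinj] at h
    exact X_ne_zero _ h
  have hterm : ∀ t, algebraMap (MvPolynomial σ F) (FractionRing (MvPolynomial σ F)) P *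
      ((algebraMap (MvPolynomial σ F) (FractionRing (MvPolynomial σ F)) (X (ι i (c t))) *
        algebraMap (MvPolynomial σ F) (FractionRing (MvPolynomial σ F)) (X (ι j (c (t + 1)))) -
        algebraMap (MvPolynomial σ F) (FractionRing (MvPolynomial σ F)) (X (ι i (c (t + 1)))) *
        algebraMap (MvPolynomial σ F) (FractionRing (MvPolynomial σ F)) (X (ι j (c t)))) /
        (algebraMap (MvPolynomial σ F) (FractionRing (MvPolynomial σ F)) (X (ι v (c t))) *
        algebraMap (MvPolynomial σ F) (FractionRing (MvPolynomial σ F)) (X (ι v (c (t + 1)))))) =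
      algebraMap (MvPolynomial σ F) (FractionRing (MvPolynomial σ F)) (N t * D t) := by
    intro t
    rw [hP t, hN t]
    simp only [map_mul, map_sub]
    have a1 := hx0 t
    have a2 := hx0 (t + 1)
    field_simp
  have hsum : algebraMap (MvPolynomial σ F) (FractionRing (MvPolynomial σ F))
      (∑ t, N t * D t) = 0 := by
    rw [map_sum, ← Finset.sum_congr rfl (fun t _ => hterm t), ← Finset.mul_sum]
    have h1 : (∑ t, (algebraMap (MvPolynomial σ F) (FractionRing (MvPolynomial σ F))
        (X (ι i (c t))) *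
        algebraMap (MvPolynomial σ F) (FractionRing (MvPolynomial σ F)) (X (ι j (c (t + 1)))) -
        algebraMap (MvPolynomial σ F) (FractionRing (MvPolynomial σ F)) (X (ι i (c (t + 1)))) *
        algebraMap (MvPolynomial σ F) (FractionRing (MvPolynomial σ F)) (X (ι j (c t)))) /
        (algebraMap (MvPolynomial σ F) (FractionRing (MvPolynomial σ F)) (X (ι v (c t))) *
        algebraMap (MvPolynomial σ F) (FractionRing (MvPolynomial σ F))
          (X (ι v (c (t + 1)))))) = 0 := h0
    rw [h1, mul_zero]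
  have hsum' : ∑ t, N t * D t = 0 := (map_eq_zero_iff _ hinj).mp hsum
  obtain ⟨f, hf⟩ : ∃ f : σ → F, ∀ s, f s =
    if (∃ k, s = ι v k) ∨ s = ι i (c 0) ∨ s = ι j (c 1) then 1 else 0 := ⟨_, fun _ => rfl⟩
  have fv : ∀ k, f (ι v k) = 1 := by
    intro k
    rw [hf, if_pos (Or.inl ⟨k, rfl⟩)]
  have fi : ∀ t, f (ι i (c t)) = if t = 0 then 1 else 0 := by
    intro t
    rw [hf]
    by_cases ht : t = 0
    · subst ht
      rw [if_pos (Or.inr (Or.inl rfl)), if_pos rfl]
    · rw [if_neg ht, if_neg]
      rintro (⟨k, h⟩ | h | h)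
      · exact hiv (hι _ _ _ _ h).1
      · exact ht (hc (hι _ _ _ _ h).2)
      · exact hij (hι _ _ _ _ h).1
  have fj : ∀ t, f (ι j (c t)) = if t = 1 then 1 else 0 := by
    intro t
    rw [hf]
    by_cases ht : t = 1
    · subst ht
      rw [if_pos (Or.inr (Or.inr rfl)), if_pos rfl]
    · rw [if_neg ht, if_neg]
      rintro (⟨k, h⟩ | h | h)
      · exact hjv (hι _ _ _ _ h).1
      · exact hij (hι _ _ _ _ h).1.symm
      · exact ht (hc (hι _ _ _ _ h).2)
  have hev := congrArg (eval f) hsum'
  rw [map_sum, map_zero] at hev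
  have hDe : ∀ t, eval f (D t) = 1 := by
    intro t
    rw [hD, map_prod]
    apply Finset.prod_eq_one
    intro s _
    rw [eval_X, fv]
  have hNe : ∀ t, eval f (N t) = if t = 0 then 1 else 0 := by
    intro t
    rw [hN]
    simp only [map_sub, map_mul, eval_X, fi, fj]
    by_cases ht : t = 0
    · subst ht
      rw [if_pos rfl, zero_add, if_pos rfl, if_neg h01.symm, if_neg h01]
      ring
    · rw [if_neg ht]
      by_cases ht1 : t = 1
      · subst ht1
        rw [if_neg h20]
        ring
      · rw [if_neg ht1]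
        ring
  simp only [map_mul, hDe, hNe, mul_one, Finset.sum_ite_eq', Finset.mem_univ, if_true] at hev
  exact one_ne_zero hev

theorem area : AREAStm := by
  intro F V W _
  refine ⟨area_gen (fun (i : V) (k : W) => (i, k)) ?_, area_gen (fun (k : W) (i : V) => (i, k)) ?_⟩
  · intro i k i' k' h
    exact ⟨congrArg Prod.fst h, congrArg Prod.snd h⟩
  · intro k i k' i' h
    exact ⟨congrArg Prod.snd h, congrArg Prod.fst h⟩

end Pool.Agent.K1H26.KT
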