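import Pool.Agent.K1H82.KT.Stm

/-!
# Zariski density of norms in tori
-/

set_option autoImplicit false

namespace Pool.Agent.K1H26.KT

open MvPolynomial Pool.Agent.K1H82.KT

theorem prod_zpow_sum {Ω ι : Type} [Field Ω] (S : Finset ι) (a : Ω) (ha : a ≠ 0) (f : ι → ℤ) :
    ∏ i ∈ S, a ^ f i = a ^ ∑ i ∈ S, f i := by
  classical
  induction S using Finset.induction_on with
  | empty => simp
  | insert i S hi ih => rw [Finset.prod_insert hi, Finset.sum_insert hi, ih, zpow_add₀ ha]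

section

variable {Ω P : Type} [Field Ω] [Fintype P] {s : ℕ}

/-- `h (u_i ∏ z_p ^ N i p)` times a power of the product of the `z_p`, as a polynomial -/
noncomputable def clr (N : Fin s → P → ℤ) (D : ℕ) (u : Fin s → Ω) (h : MvPolynomial (Fin s) Ω) :
    MvPolynomial P Ω :=
  ∑ e ∈ h.support, C (coeff e h * ∏ i, u i ^ (e i)) *
    ∏ p : P, X p ^ (((D : ℤ) + ∑ i, (e i : ℤ) * N i p).toNat)

theorem exists_D (N : Fin s → P → ℤ) (h : MvPolynomial (Fin s) Ω) : ∃ D : ℕ,
    ∀ e ∈ h.support, ∀ p, 0 < (D : ℤ) + ∑ i, (e i : ℤ) * N i p := by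
  refine ⟨1 + ∑ e ∈ h.support, ∑ p : P, (∑ i, (e i : ℤ) * N i p).natAbs, fun e he p => ?_⟩
  have h1 : (∑ i, (e i : ℤ) * N i p).natAbs ≤ ∑ p : P, (∑ i, (e i : ℤ) * N i p).natAbs :=
    Finset.single_le_sum (f := fun p : P => (∑ i, (e i : ℤ) * N i p).natAbs)
      (fun _ _ => Nat.zero_le _) (Finset.mem_univ p)
  have h2 : ∑ p : P, (∑ i, (e i : ℤ) * N i p).natAbs ≤
      ∑ e ∈ h.support, ∑ p : P, (∑ i, (e i : ℤ) * N i p).natAbs :=
    Finset.single_le_sum (f := fun e : Fin s →₀ ℕ => ∑ p : P, (∑ i, (e i : ℤ) * N i p).natAbs)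
      (fun _ _ => Nat.zero_le _) he
  omega

theorem eval_clr_ne (N : Fin s → P → ℤ) (D : ℕ) (u : Fin s → Ω) (h : MvPolynomial (Fin s) Ω)
    (hD : ∀ e ∈ h.support, ∀ p, 0 < (D : ℤ) + ∑ i, (e i : ℤ) * N i p) (z : P → Ω)
    (hz : ∀ p, z p ≠ 0) : eval z (clr N D u h) =
      (∏ p, z p) ^ D * eval (fun i => u i * ∏ p, z p ^ (N i p)) h := by
  rw [clr, map_sum, eval_eq', Finset.mul_sum]
  refine Finset.sum_congr rfl fun e he => ?_
  rw [map_mul, eval_C, map_prod]
  simp only [map_pow, eval_X]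
  have h1 : ∏ i, (u i * ∏ p, z p ^ (N i p)) ^ (e i) =
      (∏ i, u i ^ (e i)) * ∏ p, z p ^ (∑ i, (e i : ℤ) * N i p) := by
    simp only [mul_pow]
    rw [Finset.prod_mul_distrib]
    congr 1
    simp only [← Finset.prod_pow]
    rw [Finset.prod_comm]
    refine Finset.prod_congr rfl fun p _ => ?_
    rw [← prod_zpow_sum _ _ (hz p)]
    refine Finset.prod_congr rfl fun i _ => ?_
    rw [← zpow_natCast, ← zpow_mul, mul_comm]
  have h2 : ∏ p, z p ^ (((D : ℤ) + ∑ i, (e i : ℤ) * N i p).toNat) =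
      (∏ p, z p) ^ D * ∏ p, z p ^ (∑ i, (e i : ℤ) * N i p) := by
    rw [← Finset.prod_pow, ← Finset.prod_mul_distrib]
    refine Finset.prod_congr rfl fun p _ => ?_
    rw [← zpow_natCast, Int.toNat_of_nonneg (hD e he p).le, zpow_add₀ (hz p), zpow_natCast]
  rw [h1, h2]
  ring

theorem eval_clr_zero (N : Fin s → P → ℤ) (D : ℕ) (u : Fin s → Ω) (h : MvPolynomial (Fin s) Ω)
    (hD : ∀ e ∈ h.support, ∀ p, 0 < (D : ℤ) + ∑ i, (e i : ℤ) * N i p) (z : P → Ω) (p : P)
    (hz : z p = 0) : eval z (clr N D u h) = 0 := by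
  rw [clr, map_sum]
  refine Finset.sum_eq_zero fun e he => ?_
  rw [map_mul, map_prod, Finset.prod_eq_zero (Finset.mem_univ p), mul_zero]
  rw [map_pow, eval_X, hz]
  refine zero_pow ?_
  have := hD e he p
  omega

end

theorem surj {K F Ω : Type} [Field K] [Field F] [Field Ω] [Algebra K F] [FiniteDimensional K F]
    [Algebra K Ω] [Algebra F Ω] [IsScalarTower K F Ω] {m : ℕ} (ω : Module.Basis (Fin m) K F)
    (v : (F ≃ₐ[K] F) → Ω) : ∃ x : Fin m → Ω, ∀ τ : F ≃ₐ[K] F,
      ∑ k, algebraMap F Ω (τ (ω k)) * x k = v τ := by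
  classical
  let Φ : (Fin m → Ω) →ₗ[Ω] ((F ≃ₐ[K] F) → Ω) :=
    LinearMap.pi fun τ => ∑ k, (algebraMap F Ω (τ (ω k))) • LinearMap.proj k
  have hΦ : ∀ x τ, Φ x τ = ∑ k, algebraMap F Ω (τ (ω k)) * x k := by
    intro x τ
    simp [Φ, Algebra.smul_def]
  by_contra hcon
  push Not at hcon
  have hlt : LinearMap.range Φ < ⊤ := by
    rw [lt_top_iff_ne_top]
    intro h1
    have h2 : v ∈ LinearMap.range Φ := by rw [h1]; trivial
    obtain ⟨x, hx⟩ := h2
    obtain ⟨τ, hτ⟩ := hcon x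
    exact hτ (by rw [← hΦ, hx])
  obtain ⟨f, hf0, hf⟩ := Submodule.exists_le_ker_of_lt_top _ hlt
  have hfs : ∀ v, f v = ∑ τ, v τ * f (Pi.single τ 1) := by
    intro v
    rw [LinearMap.pi_apply_eq_sum_univ f v]
    refine Finset.sum_congr rfl fun τ _ => ?_
    rw [smul_eq_mul]
    congr 2
    ext τ'
    simp [Pi.single_apply, eq_comm]
  have h1 : ∀ k, ∑ τ : F ≃ₐ[K] F, algebraMap F Ω (τ (ω k)) * f (Pi.single τ 1) = 0 := by
    intro k
    have h2 : f (Φ (Pi.single k 1)) = 0 := hf ⟨_, rfl⟩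
    rw [hfs] at h2
    rw [← h2]
    refine Finset.sum_congr rfl fun τ _ => ?_
    rw [hΦ]
    simp [Pi.single_apply]
  have h2 : ∀ a : F, ∑ τ : F ≃ₐ[K] F, f (Pi.single τ 1) * algebraMap F Ω (τ a) = 0 := by
    intro a
    have h3 : ∀ τ : F ≃ₐ[K] F, algebraMap F Ω (τ a) =
        ∑ k, algebraMap K Ω (ω.repr a k) * algebraMap F Ω (τ (ω k)) := by
      intro τ
      conv_lhs => rw [← ω.sum_repr a]
      rw [map_sum, map_sum]
      refine Finset.sum_congr rfl fun k _ => ?_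
      rw [map_smul, Algebra.smul_def, map_mul, ← IsScalarTower.algebraMap_apply]
    simp only [h3, Finset.mul_sum]
    rw [Finset.sum_comm]
    refine Finset.sum_eq_zero fun k _ => ?_
    rw [← mul_zero (algebraMap K Ω (ω.repr a k)), ← h1 k, Finset.mul_sum]
    refine Finset.sum_congr rfl fun τ _ => ?_
    ring
  have hli := (linearIndependent_monoidHom F Ω).comp
    (fun τ : F ≃ₐ[K] F => (((algebraMap F Ω).comp (τ : F →+* F)) : F →* Ω)) (by
      intro τ τ' h3
      ext a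
      have h4 := congrArg (fun g : F →* Ω => g a) h3
      exact (algebraMap F Ω).injective h4)
  rw [Fintype.linearIndependent_iff] at hli
  have h3 := hli (fun τ => f (Pi.single τ 1)) (by
    ext a
    rw [Finset.sum_apply]
    exact h2 a)
  apply hf0
  ext τ
  simp [h3]

theorem t_DEN : S_DEN := by
  intro K F Ω _ _ _ _ _ _ _ _ s m ω M hM B hB u h hv w hw
  classical
  obtain ⟨D, hD⟩ := exists_D (P := (F ≃ₐ[K] F) × Fin s) (fun i p => M p.1 i p.2) h
  have hprod : ∀ (z : (F ≃ₐ[K] F) × Fin s → Ω) (i : Fin s),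
      ∏ p, z p ^ (M p.1 i p.2) = ∏ τ, ∏ j, z (τ, j) ^ (M τ i j) := fun z i =>
    Fintype.prod_prod_type _
  obtain ⟨Q, hQ⟩ : ∃ Q : MvPolynomial (Fin s × Fin m) Ω, ∀ y, eval y Q =
      eval (fun p : (F ≃ₐ[K] F) × Fin s => 1 + ∑ k, algebraMap F Ω (p.1 (ω k)) * y (p.2, k))
        (clr (fun i p => M p.1 i p.2) D u h) := by
    refine ⟨bind₁ (fun p : (F ≃ₐ[K] F) × Fin s =>
      1 + ∑ k, C (algebraMap F Ω (p.1 (ω k))) * X (p.2, k)) (clr (fun i p => M p.1 i p.2) D u h),
      fun y => ?_⟩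
    rw [← coe_aeval_eq_eval, RingHom.coe_coe, aeval_bind₁, ← coe_aeval_eq_eval, RingHom.coe_coe]
    congr 2
    ext p
    simp
  have hQ0 : Q = 0 := by
    refine MvPolynomial.funext_set (fun _ => algebraMap K Ω '' B) (fun _ =>
      hB.image (algebraMap K Ω).injective.injOn) fun y hy => ?_
    rw [map_zero, hQ]
    have hy' : ∀ q, ∃ b ∈ B, algebraMap K Ω b = y q := fun q => hy q (Set.mem_univ q)
    choose x hx hxy using hy'
    have hz : ∀ p : (F ≃ₐ[K] F) × Fin s, 1 + ∑ k, algebraMap F Ω (p.1 (ω k)) * y (p.2, k) =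
        algebraMap F Ω (p.1 (1 + ∑ k, x (p.2, k) • ω k)) := by
      intro p
      rw [map_add, map_add, map_one, map_one, map_sum, map_sum]
      congr 1
      refine Finset.sum_congr rfl fun k _ => ?_
      rw [map_smul, Algebra.smul_def, map_mul, ← IsScalarTower.algebraMap_apply, hxy, mul_comm]
    by_cases hne : ∀ j, 1 + ∑ k, x (j, k) • ω k ≠ 0
    · rw [eval_clr_ne _ _ _ _ hD]
      · have h1 := hv (fun j k => x (j, k)) (fun j k => hx _) hne
        rw [mul_eq_zero]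
        right
        rw [← h1]
        congr 2
        ext i
        rw [hprod]
        congr 1
        refine Finset.prod_congr rfl fun τ _ => Finset.prod_congr rfl fun j _ => ?_
        rw [hz]
      · intro p
        rw [hz]
        intro h1
        have h2 := (map_eq_zero_iff _ (algebraMap F Ω).injective).1 h1
        exact hne p.2 ((map_eq_zero_iff _ p.1.injective).1 h2)
    · push Not at hne
      obtain ⟨j, hj⟩ := hne
      refine eval_clr_zero _ _ _ _ hD _ (1, j) ?_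
      rw [hz]
      simp only
      rw [hj, map_zero, map_zero]
  choose x hx using fun j : Fin s => surj (Ω := Ω) ω (fun τ => if τ = 1 then w j - 1 else 0)
  have h1 := hQ (fun q => x q.1 q.2)
  rw [hQ0, map_zero] at h1
  have hz : ∀ p : (F ≃ₐ[K] F) × Fin s, 1 + ∑ k, algebraMap F Ω (p.1 (ω k)) * x p.2 k =
      if p.1 = 1 then w p.2 else 1 := by
    intro p
    rw [hx]
    split_ifs <;> ring
  simp only [hz] at h1
  rw [eval_clr_ne _ _ _ _ hD] at h1
  · have h2 := (mul_eq_zero.1 h1.symm).resolve_left ?_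
    · rw [← h2]
      congr 2
      ext i
      congr 1
      rw [hprod, Finset.prod_eq_single (1 : F ≃ₐ[K] F)]
      · rw [hM, Finset.prod_eq_single i]
        · simp
        · intro j _ hj
          simp [Matrix.one_apply_ne hj.symm]
        · simp
      · intro τ _ hτ
        simp [hτ]
      · simp
    · refine pow_ne_zero _ (Finset.prod_ne_zero_iff.2 fun p _ => ?_)
      split_ifs
      · exact hw _
      · exact one_ne_zero
  · intro p
    split_ifs
    · exact hw _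
    · exact one_ne_zero

end Pool.Agent.K1H26.KT
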